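import Mathlib
import Pool.Agent.K1H27.VM.Stm

/-!
# Project VM (MP_5ac32f_an), part CPT: integral operators of Hille-Tamarkin type are compact
-/

set_option autoImplicit false
set_option linter.unusedSectionVars false

namespace Pool.Agent.K1H2.VM

open MeasureTheory Set Metric Filter Topology Pool.Agent.K1H27.VM
open scoped ENNReal NNReal

/-- the mixed norm -/
noncomputable def MX {S : Type} [MeasurableSpace S] (μ : Measure S) (P Q : ℝ)
    (F : S → S → ℝ≥0∞) : ℝ≥0∞ :=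
  ∫⁻ x, (∫⁻ y, F x y ^ Q ∂μ) ^ (P / Q) ∂μ

section mixed

variable {S : Type} [MeasurableSpace S] {μ : Measure S} [SigmaFinite μ]

theorem inner_meas {Q : ℝ} {F : S → S → ℝ≥0∞} (hF : Measurable (Function.uncurry F)) :
    Measurable (fun x => ∫⁻ y, F x y ^ Q ∂μ) := by
  have h : Measurable (fun z : S × S => Function.uncurry F z ^ Q) := hF.pow_const Q
  exact h.lintegral_prod_right'

theorem mx_tendsto {P Q : ℝ} (hP : 0 < P) (hQ : 0 < Q) (G : S → S → ℝ≥0∞)
    (F : ℕ → S → S → ℝ≥0∞) (hF : ∀ n, Measurable (Function.uncurry (F n)))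
    (hG : Measurable (Function.uncurry G)) (hGf : MX μ P Q G ≠ ∞)
    (hle : ∀ n x y, F n x y ≤ G x y)
    (hlim : ∀ x y, Tendsto (fun n => F n x y) atTop (𝓝 0)) :
    Tendsto (fun n => MX μ P Q (F n)) atTop (𝓝 0) := by
  have hPQ : 0 < P / Q := div_pos hP hQ
  have key := tendsto_lintegral_of_dominated_convergence (μ := μ)
    (F := fun n x => (∫⁻ y, F n x y ^ Q ∂μ) ^ (P / Q)) (f := fun _ => 0)
    (fun x => (∫⁻ y, G x y ^ Q ∂μ) ^ (P / Q)) (fun n => (inner_meas (hF n)).pow_const _)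
    (fun n => Eventually.of_forall fun x => by
      refine ENNReal.rpow_le_rpow (lintegral_mono fun y => ?_) hPQ.le
      exact ENNReal.rpow_le_rpow (hle n x y) hQ.le) hGf ?_
  · simpa [MX] using key
  · have hfin : ∀ᵐ x ∂μ, (∫⁻ y, G x y ^ Q ∂μ) ^ (P / Q) < ∞ :=
      ae_lt_top ((inner_meas hG).pow_const _) hGf
    filter_upwards [hfin] with x hx
    have hx' : ∫⁻ y, G x y ^ Q ∂μ ≠ ∞ := by
      intro h
      rw [h, ENNReal.top_rpow_of_pos hPQ] at hx
      exact lt_irrefl _ hx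
    have h1 := tendsto_lintegral_of_dominated_convergence (μ := μ)
      (F := fun n y => F n x y ^ Q) (f := fun _ => 0) (fun y => G x y ^ Q)
      (fun n => ((hF n).comp (measurable_const.prodMk measurable_id)).pow_const Q)
      (fun n => Eventually.of_forall fun y => ENNReal.rpow_le_rpow (hle n x y) hQ.le) hx'
      (Eventually.of_forall fun y => by
        have := (ENNReal.continuous_rpow_const (y := Q)).tendsto 0 |>.comp (hlim x y)
        simpa [Function.comp_def, ENNReal.zero_rpow_of_pos hQ] using this)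
    have h2 := (ENNReal.continuous_rpow_const (y := P / Q)).tendsto _ |>.comp h1
    simpa [Function.comp_def, ENNReal.zero_rpow_of_pos hPQ] using h2

theorem mx_mono {P Q : ℝ} (hP : 0 < P) (hQ : 0 < Q) {F G : S → S → ℝ≥0∞}
    (h : ∀ x y, F x y ≤ G x y) : MX μ P Q F ≤ MX μ P Q G := by
  refine lintegral_mono fun x => ENNReal.rpow_le_rpow (lintegral_mono fun y => ?_)
    (div_pos hP hQ).le
  exact ENNReal.rpow_le_rpow (h x y) hQ.le

theorem mx_smul {P Q : ℝ} (hP : 0 < P) (hQ : 0 < Q) (c : ℝ≥0∞) (hc : c ≠ ∞)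
    (F : S → S → ℝ≥0∞) : MX μ P Q (fun x y => c * F x y) = c ^ P * MX μ P Q F := by
  have hcQ : c ^ Q ≠ ∞ := ENNReal.rpow_ne_top_of_nonneg hQ.le hc
  have hcP : c ^ P ≠ ∞ := ENNReal.rpow_ne_top_of_nonneg hP.le hc
  unfold MX
  rw [← lintegral_const_mul' _ _ hcP]
  refine lintegral_congr fun x => ?_
  have : ∫⁻ y, (c * F x y) ^ Q ∂μ = c ^ Q * ∫⁻ y, F x y ^ Q ∂μ := by
    rw [← lintegral_const_mul' _ _ hcQ]
    refine lintegral_congr fun y => ?_
    rw [ENNReal.mul_rpow_of_nonneg _ _ hQ.le]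
  rw [this, ENNReal.mul_rpow_of_nonneg _ _ (div_pos hP hQ).le, ← ENNReal.rpow_mul,
    mul_div_cancel₀ _ hQ.ne']

theorem add_rpow_le' (a b : ℝ≥0∞) {r : ℝ} (hr : 0 < r) :
    (a + b) ^ r ≤ 2 ^ r * (a ^ r + b ^ r) := by
  have h1 : a + b ≤ 2 * max a b := by
    rw [two_mul]
    exact add_le_add (le_max_left _ _) (le_max_right _ _)
  calc (a + b) ^ r ≤ (2 * max a b) ^ r := ENNReal.rpow_le_rpow h1 hr.le
    _ = 2 ^ r * (max a b) ^ r := ENNReal.mul_rpow_of_nonneg _ _ hr.le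
    _ ≤ 2 ^ r * (a ^ r + b ^ r) := by
        gcongr
        rcases le_total a b with h | h
        · rw [max_eq_right h]; exact le_add_self
        · rw [max_eq_left h]; exact le_self_add

theorem mx_add {P Q : ℝ} (hP : 0 < P) (hQ : 0 < Q) {F G : S → S → ℝ≥0∞}
    (hF : Measurable (Function.uncurry F)) (hFf : MX μ P Q F ≠ ∞) (hGf : MX μ P Q G ≠ ∞) :
    MX μ P Q (fun x y => F x y + G x y) ≠ ∞ := by
  have hPQ : 0 < P / Q := div_pos hP hQ
  have h2Q : (2 : ℝ≥0∞) ^ Q ≠ ∞ := ENNReal.rpow_ne_top_of_nonneg hQ.le (by simp)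
  have h2P : (2 : ℝ≥0∞) ^ (P / Q) ≠ ∞ := ENNReal.rpow_ne_top_of_nonneg hPQ.le (by simp)
  have hD : ((2 : ℝ≥0∞) ^ Q) ^ (P / Q) ≠ ∞ := ENNReal.rpow_ne_top_of_nonneg hPQ.le h2Q
  have key : MX μ P Q (fun x y => F x y + G x y) ≤
      (((2 : ℝ≥0∞) ^ Q) ^ (P / Q) * 2 ^ (P / Q)) * (MX μ P Q F + MX μ P Q G) := by
    have hFm : Measurable (fun x => (∫⁻ y, F x y ^ Q ∂μ) ^ (P / Q)) :=
      (inner_meas hF).pow_const _
    unfold MX
    rw [← lintegral_add_left hFm, ← lintegral_const_mul' _ _ (ENNReal.mul_ne_top hD h2P)]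
    refine lintegral_mono fun x => ?_
    have h1 : ∫⁻ y, (F x y + G x y) ^ Q ∂μ ≤
        2 ^ Q * (∫⁻ y, F x y ^ Q ∂μ + ∫⁻ y, G x y ^ Q ∂μ) := by
      have hFx : Measurable (fun y => F x y ^ Q) :=
        (hF.comp (measurable_const.prodMk measurable_id)).pow_const Q
      rw [← lintegral_add_left hFx, ← lintegral_const_mul' _ _ h2Q]
      exact lintegral_mono fun y => add_rpow_le' _ _ hQ
    calc (∫⁻ y, (F x y + G x y) ^ Q ∂μ) ^ (P / Q)
        ≤ (2 ^ Q * (∫⁻ y, F x y ^ Q ∂μ + ∫⁻ y, G x y ^ Q ∂μ)) ^ (P / Q) :=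
          ENNReal.rpow_le_rpow h1 hPQ.le
      _ = (2 ^ Q) ^ (P / Q) * (∫⁻ y, F x y ^ Q ∂μ + ∫⁻ y, G x y ^ Q ∂μ) ^ (P / Q) :=
          ENNReal.mul_rpow_of_nonneg _ _ hPQ.le
      _ ≤ (2 ^ Q) ^ (P / Q) * (2 ^ (P / Q) *
            ((∫⁻ y, F x y ^ Q ∂μ) ^ (P / Q) + (∫⁻ y, G x y ^ Q ∂μ) ^ (P / Q))) := by
          gcongr
          exact add_rpow_le' _ _ hPQ
      _ = _ := by rw [mul_assoc]
  exact ne_top_of_le_ne_top (ENNReal.mul_ne_top (ENNReal.mul_ne_top hD h2P)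
    (ENNReal.add_ne_top.2 ⟨hFf, hGf⟩)) key

theorem mx_bdd {P Q : ℝ} (hP : 0 < P) (hQ : 0 < Q) (A : Set S) (hA : MeasurableSet A)
    (hμ : μ A ≠ ∞) (F : S → S → ℝ≥0∞) (C : ℝ≥0∞) (hC : C ≠ ∞)
    (h1 : ∀ x y, F x y ≤ C) (h2 : ∀ x y, (x, y) ∉ A ×ˢ A → F x y = 0) :
    MX μ P Q F ≠ ∞ := by
  have hPQ : 0 < P / Q := div_pos hP hQ
  have hCQ : C ^ Q ≠ ∞ := ENNReal.rpow_ne_top_of_nonneg hQ.le hC
  have key : MX μ P Q F ≤ ∫⁻ x, A.indicator (fun _ => (C ^ Q * μ A) ^ (P / Q)) x ∂μ := by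
    refine lintegral_mono fun x => ?_
    by_cases hx : x ∈ A
    · rw [indicator_of_mem hx]
      refine ENNReal.rpow_le_rpow ?_ hPQ.le
      rw [← lintegral_indicator_const hA]
      refine lintegral_mono fun y => ?_
      by_cases hy : y ∈ A
      · rw [indicator_of_mem hy]
        exact ENNReal.rpow_le_rpow (h1 x y) hQ.le
      · rw [indicator_of_notMem hy, h2 x y (fun h => hy h.2), ENNReal.zero_rpow_of_pos hQ]
    · rw [indicator_of_notMem hx]
      have : ∫⁻ y, F x y ^ Q ∂μ = 0 := by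
        rw [← lintegral_zero (μ := μ)]
        refine lintegral_congr fun y => ?_
        rw [h2 x y (fun h => hx h.1), ENNReal.zero_rpow_of_pos hQ]
      rw [this, ENNReal.zero_rpow_of_pos hPQ]
  rw [lintegral_indicator_const hA] at key
  exact ne_top_of_le_ne_top (ENNReal.mul_ne_top (ENNReal.rpow_ne_top_of_nonneg hPQ.le
    (ENNReal.mul_ne_top hCQ hμ)) hμ) key

end mixed

section ops

variable {S : Type} [MeasurableSpace S] {μ : Measure S} [SigmaFinite μ] {p q : ℝ≥0∞}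
  [Fact (1 ≤ p)] [Fact (1 ≤ q)]

theorem toReal_pos_of_fact {r : ℝ≥0∞} [h : Fact (1 ≤ r)] (hr : r ≠ ∞) : 0 < r.toReal :=
  ENNReal.toReal_pos (zero_lt_one.trans_le h.out).ne' hr

theorem real_conj (hpq : p.HolderConjugate q) (hp : p ≠ ∞) (hq : q ≠ ∞) :
    p.toReal.HolderConjugate q.toReal := by
  have := hpq
  have := ENNReal.HolderTriple.toReal (p := p) (q := q) 1 (toReal_pos_of_fact hp)
    (toReal_pos_of_fact hq)
  simpa using this

theorem holder_pt (hc : p.toReal.HolderConjugate q.toReal) (hp : p ≠ ∞) {k : S → S → ℂ}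
    (hk : Measurable (Function.uncurry k)) (f : Lp ℂ p μ) (x : S) :
    ∫⁻ y, ‖k x y * f y‖ₑ ∂μ ≤ (∫⁻ y, ‖k x y‖ₑ ^ q.toReal ∂μ) ^ (1 / q.toReal) * ‖f‖ₑ := by
  have hp0 : p ≠ 0 := (zero_lt_one.trans_le (Fact.out : 1 ≤ p)).ne'
  have hkx : Measurable (fun y => k x y) := hk.comp (measurable_const.prodMk measurable_id)
  have h1 := ENNReal.lintegral_mul_le_Lp_mul_Lq μ hc.symm (f := fun y => ‖k x y‖ₑ)
    (g := fun y => ‖f y‖ₑ) hkx.enorm.aemeasurable (Lp.aestronglyMeasurable f).enorm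
  have h2 : ‖f‖ₑ = (∫⁻ y, ‖f y‖ₑ ^ p.toReal ∂μ) ^ (1 / p.toReal) := by
    rw [Lp.enorm_def, eLpNorm_eq_lintegral_rpow_enorm_toReal hp0 hp]
  rw [h2]
  refine le_trans (le_of_eq (lintegral_congr fun y => ?_)) h1
  simp [enorm_mul]

theorem enorm_le (hc : p.toReal.HolderConjugate q.toReal) (hp : p ≠ ∞) {k : S → S → ℂ}
    (hk : Measurable (Function.uncurry k)) {V : Lp ℂ p μ →L[ℂ] Lp ℂ p μ} (hV : IsInt k V)
    (f : Lp ℂ p μ) : ‖V f‖ₑ ≤ (HT μ p q k) ^ (1 / p.toReal) * ‖f‖ₑ := by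
  have hp0 : p ≠ 0 := (zero_lt_one.trans_le (Fact.out : 1 ≤ p)).ne'
  have hP : 0 < p.toReal := hc.pos
  have hQ : 0 < q.toReal := hc.symm.pos
  have hm : Measurable (fun x => (∫⁻ y, ‖k x y‖ₑ ^ q.toReal ∂μ) ^ (p.toReal / q.toReal)) :=
    (inner_meas (μ := μ) (F := fun x y => ‖k x y‖ₑ) hk.enorm).pow_const _
  rw [Lp.enorm_def, eLpNorm_congr_ae (hV f), eLpNorm_eq_lintegral_rpow_enorm_toReal hp0 hp]
  have h1 : ∫⁻ x, ‖∫ y, k x y * f y ∂μ‖ₑ ^ p.toReal ∂μ ≤ HT μ p q k * ‖f‖ₑ ^ p.toReal := by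
    unfold HT
    rw [← lintegral_mul_const _ hm]
    refine lintegral_mono fun x => ?_
    calc ‖∫ y, k x y * f y ∂μ‖ₑ ^ p.toReal
        ≤ ((∫⁻ y, ‖k x y‖ₑ ^ q.toReal ∂μ) ^ (1 / q.toReal) * ‖f‖ₑ) ^ p.toReal :=
          ENNReal.rpow_le_rpow ((enorm_integral_le_lintegral_enorm _).trans
            (holder_pt hc hp hk f x)) hP.le
      _ = _ := by
          rw [ENNReal.mul_rpow_of_nonneg _ _ hP.le, ← ENNReal.rpow_mul]
          congr 2
          ring
  calc (∫⁻ x, ‖∫ y, k x y * f y ∂μ‖ₑ ^ p.toReal ∂μ) ^ (1 / p.toReal)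
      ≤ (HT μ p q k * ‖f‖ₑ ^ p.toReal) ^ (1 / p.toReal) :=
        ENNReal.rpow_le_rpow h1 (one_div_pos.2 hP).le
    _ = _ := by
        rw [ENNReal.mul_rpow_of_nonneg _ _ (one_div_pos.2 hP).le, ← ENNReal.rpow_mul,
          mul_one_div_cancel hP.ne', ENNReal.rpow_one]

theorem opNorm_le (hc : p.toReal.HolderConjugate q.toReal) (hp : p ≠ ∞) {k : S → S → ℂ}
    (hk : Measurable (Function.uncurry k)) (hkf : HT μ p q k ≠ ∞)
    {V : Lp ℂ p μ →L[ℂ] Lp ℂ p μ} (hV : IsInt k V) :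
    ‖V‖ ≤ ((HT μ p q k) ^ (1 / p.toReal)).toReal := by
  have hP : 0 < p.toReal := hc.pos
  have hfin : (HT μ p q k) ^ (1 / p.toReal) ≠ ∞ :=
    ENNReal.rpow_ne_top_of_nonneg (one_div_pos.2 hP).le hkf
  refine ContinuousLinearMap.opNorm_le_bound _ ENNReal.toReal_nonneg fun f => ?_
  have h := enorm_le hc hp hk hV f
  have h2 := (ENNReal.toReal_le_toReal (by simp) (ENNReal.mul_ne_top hfin (by simp))).2 h
  simpa [ENNReal.toReal_mul] using h2

theorem int_ae (hc : p.toReal.HolderConjugate q.toReal) (hp : p ≠ ∞) {k : S → S → ℂ}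
    (hk : Measurable (Function.uncurry k)) (hkf : HT μ p q k ≠ ∞) (f : Lp ℂ p μ) :
    ∀ᵐ x ∂μ, Integrable (fun y => k x y * f y) μ := by
  have hP : 0 < p.toReal := hc.pos
  have hQ : 0 < q.toReal := hc.symm.pos
  have hPQ : 0 < p.toReal / q.toReal := div_pos hP hQ
  have hm : Measurable (fun x => (∫⁻ y, ‖k x y‖ₑ ^ q.toReal ∂μ) ^ (p.toReal / q.toReal)) :=
    (inner_meas (μ := μ) (F := fun x y => ‖k x y‖ₑ) hk.enorm).pow_const _
  filter_upwards [ae_lt_top hm hkf] with x hx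
  have hx' : ∫⁻ y, ‖k x y‖ₑ ^ q.toReal ∂μ ≠ ∞ := by
    intro h
    rw [h, ENNReal.top_rpow_of_pos hPQ] at hx
    exact lt_irrefl _ hx
  have hkx : Measurable (fun y => k x y) := hk.comp (measurable_const.prodMk measurable_id)
  refine ⟨hkx.aestronglyMeasurable.mul (Lp.aestronglyMeasurable f), ?_⟩
  refine lt_of_le_of_lt (holder_pt hc hp hk f x) ?_
  exact ENNReal.mul_lt_top (lt_top_iff_ne_top.2
    (ENNReal.rpow_ne_top_of_nonneg (one_div_pos.2 hQ).le hx')) (by simp)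

theorem isInt_sub (hc : p.toReal.HolderConjugate q.toReal) (hp : p ≠ ∞) {k l : S → S → ℂ}
    (hk : Measurable (Function.uncurry k)) (hkf : HT μ p q k ≠ ∞)
    (hl : Measurable (Function.uncurry l)) (hlf : HT μ p q l ≠ ∞)
    {V W : Lp ℂ p μ →L[ℂ] Lp ℂ p μ} (hV : IsInt k V) (hW : IsInt l W) :
    IsInt (fun x y => k x y - l x y) (V - W) := by
  intro f
  have h0 : ⇑((V - W) f) =ᵐ[μ] ⇑(V f) - ⇑(W f) := by
    rw [sub_apply]
    exact Lp.coeFn_sub _ _
  filter_upwards [h0, hV f, hW f, int_ae hc hp hk hkf f, int_ae hc hp hl hlf f]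
    with x h0x h1 h2 h3 h4
  rw [h0x, Pi.sub_apply, h1, h2, ← integral_sub h3 h4]
  refine integral_congr_ae (Eventually.of_forall fun y => ?_)
  simp only [sub_mul]

theorem isInt_add (hc : p.toReal.HolderConjugate q.toReal) (hp : p ≠ ∞) {k l : S → S → ℂ}
    (hk : Measurable (Function.uncurry k)) (hkf : HT μ p q k ≠ ∞)
    (hl : Measurable (Function.uncurry l)) (hlf : HT μ p q l ≠ ∞)
    {V W : Lp ℂ p μ →L[ℂ] Lp ℂ p μ} (hV : IsInt k V) (hW : IsInt l W) :
    IsInt (fun x y => k x y + l x y) (V + W) := by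
  intro f
  have h0 : ⇑((V + W) f) =ᵐ[μ] ⇑(V f) + ⇑(W f) := by
    rw [add_apply]
    exact Lp.coeFn_add _ _
  filter_upwards [h0, hV f, hW f, int_ae hc hp hk hkf f, int_ae hc hp hl hlf f]
    with x h0x h1 h2 h3 h4
  rw [h0x, Pi.add_apply, h1, h2, ← integral_add h3 h4]
  refine integral_congr_ae (Eventually.of_forall fun y => ?_)
  simp only [add_mul]

theorem isInt_smul (c : ℂ) {k : S → S → ℂ} {V : Lp ℂ p μ →L[ℂ] Lp ℂ p μ} (hV : IsInt k V) :
    IsInt (fun x y => c * k x y) (c • V) := by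
  intro f
  have h0 : ⇑((c • V) f) =ᵐ[μ] c • ⇑(V f) := by
    rw [smul_apply]
    exact Lp.coeFn_smul _ _
  filter_upwards [h0, hV f] with x h0x h1
  rw [h0x, Pi.smul_apply, h1, smul_eq_mul, ← integral_const_mul]
  refine integral_congr_ae (Eventually.of_forall fun y => ?_)
  simp only [mul_assoc]

theorem isInt_unique {k : S → S → ℂ} {V W : Lp ℂ p μ →L[ℂ] Lp ℂ p μ} (hV : IsInt k V)
    (hW : IsInt k W) : V = W := by
  ext1 f
  exact Lp.ext ((hV f).trans (hW f).symm)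

end ops

section cls

variable {S : Type} [MeasurableSpace S] {μ : Measure S} [SigmaFinite μ] {p q : ℝ≥0∞}
  [Fact (1 ≤ p)] [Fact (1 ≤ q)]

/-- kernels of finite norm whose operator is compact -/
def Cls (μ : Measure S) (p q : ℝ≥0∞) [Fact (1 ≤ p)] (k : S → S → ℂ) : Prop :=
  Measurable (Function.uncurry k) ∧ HT μ p q k ≠ ∞ ∧
    ∃ V : Lp ℂ p μ →L[ℂ] Lp ℂ p μ, IsInt k V ∧ IsCompactOperator V

theorem ht_eq (k : S → S → ℂ) :
    HT μ p q k = MX μ p.toReal q.toReal (fun x y => ‖k x y‖ₑ) := rfl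

theorem ht_sub (hP : 0 < p.toReal) (hQ : 0 < q.toReal) {k l : S → S → ℂ}
    (hk : Measurable (Function.uncurry k)) (hkf : HT μ p q k ≠ ∞) (hlf : HT μ p q l ≠ ∞) :
    HT μ p q (fun x y => k x y - l x y) ≠ ∞ := by
  refine ne_top_of_le_ne_top (mx_add hP hQ (F := fun x y => ‖k x y‖ₑ)
    (G := fun x y => ‖l x y‖ₑ) hk.enorm hkf hlf) (mx_mono hP hQ fun x y => ?_)
  exact enorm_sub_le

theorem ht_add (hP : 0 < p.toReal) (hQ : 0 < q.toReal) {k l : S → S → ℂ}
    (hk : Measurable (Function.uncurry k)) (hkf : HT μ p q k ≠ ∞) (hlf : HT μ p q l ≠ ∞) :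
    HT μ p q (fun x y => k x y + l x y) ≠ ∞ := by
  refine ne_top_of_le_ne_top (mx_add hP hQ (F := fun x y => ‖k x y‖ₑ)
    (G := fun x y => ‖l x y‖ₑ) hk.enorm hkf hlf) (mx_mono hP hQ fun x y => ?_)
  exact enorm_add_le _ _

theorem cls_sub (hc : p.toReal.HolderConjugate q.toReal) (hp : p ≠ ∞) {k l : S → S → ℂ}
    (hk : Cls μ p q k) (hl : Cls μ p q l) : Cls μ p q (fun x y => k x y - l x y) := by
  obtain ⟨hk1, hk2, V, hV, hVc⟩ := hk
  obtain ⟨hl1, hl2, W, hW, hWc⟩ := hl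
  exact ⟨hk1.sub hl1, ht_sub hc.pos hc.symm.pos hk1 hk2 hl2, V - W,
    isInt_sub hc hp hk1 hk2 hl1 hl2 hV hW, hVc.sub hWc⟩

theorem cls_add (hc : p.toReal.HolderConjugate q.toReal) (hp : p ≠ ∞) {k l : S → S → ℂ}
    (hk : Cls μ p q k) (hl : Cls μ p q l) : Cls μ p q (fun x y => k x y + l x y) := by
  obtain ⟨hk1, hk2, V, hV, hVc⟩ := hk
  obtain ⟨hl1, hl2, W, hW, hWc⟩ := hl
  exact ⟨hk1.add hl1, ht_add hc.pos hc.symm.pos hk1 hk2 hl2, V + W,
    isInt_add hc hp hk1 hk2 hl1 hl2 hV hW, hVc.add hWc⟩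

theorem cls_smul (hc : p.toReal.HolderConjugate q.toReal) (c : ℂ) {k : S → S → ℂ}
    (hk : Cls μ p q k) : Cls μ p q (fun x y => c * k x y) := by
  obtain ⟨hk1, hk2, V, hV, hVc⟩ := hk
  refine ⟨hk1.const_mul c, ?_, c • V, isInt_smul c hV, hVc.smul c⟩
  rw [ht_eq]
  simp only [enorm_mul]
  rw [mx_smul hc.pos hc.symm.pos _ (by simp)]
  exact ENNReal.mul_ne_top (ENNReal.rpow_ne_top_of_nonneg hc.nonneg (by simp)) hk2

theorem cls_zero (hc : p.toReal.HolderConjugate q.toReal) :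
    Cls μ p q (fun _ _ => 0) := by
  refine ⟨measurable_const, ?_, 0, ?_, isCompactOperator_zero⟩
  · have h1 : (0:ℝ≥0∞) ^ q.toReal = 0 := ENNReal.zero_rpow_of_pos hc.symm.pos
    have h2 : (0:ℝ≥0∞) ^ (p.toReal / q.toReal) = 0 :=
      ENNReal.zero_rpow_of_pos (div_pos hc.pos hc.symm.pos)
    simp [HT, h1, h2]
  · intro f
    have : ⇑((0 : Lp ℂ p μ →L[ℂ] Lp ℂ p μ) f) =ᵐ[μ] 0 := Lp.coeFn_zero _ _ _
    filter_upwards [this] with x hx
    rw [hx]
    simp

theorem cls_lim (hOP : S_OP) (hpq : p.HolderConjugate q) (hp : p ≠ ∞) (hq : q ≠ ∞)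
    {k : S → S → ℂ} (hk : Measurable (Function.uncurry k)) (hkf : HT μ p q k ≠ ∞)
    (l : ℕ → S → S → ℂ) (hl : ∀ n, Cls μ p q (l n))
    (h : Tendsto (fun n => HT μ p q (fun x y => k x y - l n x y)) atTop (𝓝 0)) :
    Cls μ p q k := by
  have hc := real_conj hpq hp hq
  obtain ⟨V, hV⟩ := (hOP S μ p q hpq hp hq k hk hkf).1
  choose hl1 hl2 W hW hWc using hl
  refine ⟨hk, hkf, V, hV, ?_⟩
  have hlim : Tendsto W atTop (𝓝 V) := by
    rw [tendsto_iff_norm_sub_tendsto_zero]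
    have h1 : Tendsto (fun n => ((HT μ p q (fun x y => k x y - l n x y)) ^
        (1 / p.toReal)).toReal) atTop (𝓝 0) := by
      have h2 := (ENNReal.continuous_rpow_const (y := 1 / p.toReal)).tendsto 0 |>.comp h
      rw [ENNReal.zero_rpow_of_pos (one_div_pos.2 hc.pos)] at h2
      have h3 := (ENNReal.tendsto_toReal ENNReal.zero_ne_top).comp h2
      simpa [Function.comp_def] using h3
    refine squeeze_zero (fun _ => norm_nonneg _) (fun n => ?_) h1
    rw [← norm_neg, neg_sub]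
    exact opNorm_le hc hp (hk.sub (hl1 n)) (ht_sub hc.pos hc.symm.pos hk hkf (hl2 n))
      (isInt_sub hc hp hk hkf (hl1 n) (hl2 n) hV (hW n))
  exact isCompactOperator_of_tendsto hlim (Eventually.of_forall hWc)

theorem cls_dct (hOP : S_OP) (hpq : p.HolderConjugate q) (hp : p ≠ ∞) (hq : q ≠ ∞)
    {k : S → S → ℂ} (hk : Measurable (Function.uncurry k)) (hkf : HT μ p q k ≠ ∞)
    (l : ℕ → S → S → ℂ) (hl : ∀ n, Cls μ p q (l n))
    (hle : ∀ n x y, ‖l n x y‖ ≤ 2 * ‖k x y‖)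
    (h : ∀ x y, Tendsto (fun n => l n x y) atTop (𝓝 (k x y))) :
    Cls μ p q k := by
  have hc := real_conj hpq hp hq
  refine cls_lim hOP hpq hp hq hk hkf l hl ?_
  refine mx_tendsto hc.pos hc.symm.pos (fun x y => 3 * ‖k x y‖ₑ)
    (fun n x y => ‖k x y - l n x y‖ₑ) (fun n => (hk.sub (hl n).1).enorm)
    (hk.enorm.const_mul 3) ?_ (fun n x y => ?_) (fun x y => ?_)
  · rw [mx_smul hc.pos hc.symm.pos _ (by simp)]
    exact ENNReal.mul_ne_top (ENNReal.rpow_ne_top_of_nonneg hc.nonneg (by simp)) hkf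
  · have h1 : ‖k x y - l n x y‖ ≤ 3 * ‖k x y‖ := by
      have := hle n x y
      have h2 := norm_sub_le (k x y) (l n x y)
      linarith
    have h3 : ‖k x y - l n x y‖ₑ = ENNReal.ofReal ‖k x y - l n x y‖ := (ofReal_norm _).symm
    have h4 : 3 * ‖k x y‖ₑ = ENNReal.ofReal (3 * ‖k x y‖) := by
      rw [ENNReal.ofReal_mul (by norm_num), ofReal_norm]
      norm_num
    rw [h3, h4]
    exact ENNReal.ofReal_le_ofReal h1
  · have h1 : Tendsto (fun n => k x y - l n x y) atTop (𝓝 (k x y - k x y)) :=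
      tendsto_const_nhds.sub (h x y)
    rw [sub_self] at h1
    have h2 := h1.enorm
    simpa using h2

/-- the kernel of a set -/
noncomputable def ind (E : Set (S × S)) (x y : S) : ℂ := E.indicator (fun _ => (1:ℂ)) (x, y)

theorem ind_meas {E : Set (S × S)} (hE : MeasurableSet E) :
    Measurable (Function.uncurry (ind E)) :=
  (measurable_const.indicator hE : Measurable (E.indicator (fun _ => (1:ℂ))))

theorem ind_norm_le (E : Set (S × S)) (x y : S) : ‖ind E x y‖ ≤ 1 := by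
  unfold ind
  by_cases h : (x, y) ∈ E
  · rw [indicator_of_mem h]; simp
  · rw [indicator_of_notMem h]; simp

theorem ht_of_bdd (hc : p.toReal.HolderConjugate q.toReal) {A : Set S}
    (hA : MeasurableSet A) (hμ : μ A ≠ ∞) (k : S → S → ℂ) (C : ℝ)
    (h1 : ∀ x y, ‖k x y‖ ≤ C) (h2 : ∀ x y, (x, y) ∉ A ×ˢ A → k x y = 0) :
    HT μ p q k ≠ ∞ := by
  refine mx_bdd hc.pos hc.symm.pos A hA hμ (fun x y => ‖k x y‖ₑ) (ENNReal.ofReal C) (by simp)
    (fun x y => ?_) (fun x y h => ?_)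
  · rw [← ofReal_norm]
    exact ENNReal.ofReal_le_ofReal (h1 x y)
  · rw [h2 x y h, enorm_zero]

theorem compact_of_rank_one {X : Type*} [NormedAddCommGroup X] [NormedSpace ℂ X]
    (V : X →L[ℂ] X) (e : X) (h : ∀ f, ∃ c : ℂ, V f = c • e) : IsCompactOperator V := by
  have hmem : ∀ f, V f ∈ Submodule.span ℂ {e} := fun f => by
    obtain ⟨c, hc⟩ := h f
    rw [hc]
    exact Submodule.smul_mem _ _ (Submodule.mem_span_singleton_self e)
  have : FiniteDimensional ℂ (Submodule.span ℂ {e}) := inferInstance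
  have : ProperSpace (Submodule.span ℂ {e}) := FiniteDimensional.proper ℂ _
  have hid : IsCompactOperator (id : Submodule.span ℂ {e} → Submodule.span ℂ {e}) :=
    isCompactOperator_id_iff_locallyCompactSpace.2 inferInstance
  have h1 := (hid.comp_clm (V.codRestrict _ hmem)).clm_comp (Submodule.subtypeL _)
  exact h1

theorem cls_rect (hOP : S_OP) (hpq : p.HolderConjugate q) (hp : p ≠ ∞) (hq : q ≠ ∞)
    {A : Set S} (hA : MeasurableSet A) (hμ : μ A ≠ ∞) {s t : Set S} (hs : MeasurableSet s)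
    (ht : MeasurableSet t) : Cls μ p q (ind ((s ×ˢ t) ∩ A ×ˢ A)) := by
  have hc := real_conj hpq hp hq
  have hk : Measurable (Function.uncurry (ind ((s ×ˢ t) ∩ A ×ˢ A))) :=
    ind_meas ((hs.prod ht).inter (hA.prod hA))
  have hkf : HT μ p q (ind ((s ×ˢ t) ∩ A ×ˢ A)) ≠ ∞ :=
    ht_of_bdd hc hA hμ _ 1 (ind_norm_le _) (fun x y h => by
      unfold ind
      exact indicator_of_notMem (fun h' => h h'.2) _)
  obtain ⟨V, hV⟩ := (hOP S μ p q hpq hp hq _ hk hkf).1
  refine ⟨hk, hkf, V, hV, ?_⟩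
  have hsA : MeasurableSet (s ∩ A) := hs.inter hA
  have hsAμ : μ (s ∩ A) ≠ ∞ := ne_top_of_le_ne_top hμ (measure_mono inter_subset_right)
  refine compact_of_rank_one V (indicatorConstLp p hsA hsAμ (1:ℂ)) fun f => ?_
  refine ⟨∫ y in t ∩ A, f y ∂μ, Lp.ext ?_⟩
  have h1 := hV f
  have h2 : ⇑(indicatorConstLp p hsA hsAμ (1:ℂ)) =ᵐ[μ] (s ∩ A).indicator fun _ => (1:ℂ) :=
    indicatorConstLp_coeFn
  have h3 := Lp.coeFn_smul (∫ y in t ∩ A, f y ∂μ) (indicatorConstLp p hsA hsAμ (1:ℂ))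
  filter_upwards [h1, h2, h3] with x h1 h2 h3
  rw [h1, h3, Pi.smul_apply, h2, smul_eq_mul, ← integral_indicator (ht.inter hA)]
  by_cases hx : x ∈ s ∩ A
  · rw [indicator_of_mem hx, mul_one]
    refine integral_congr_ae (Eventually.of_forall fun y => ?_)
    by_cases hy : y ∈ t ∩ A
    · have hxy : (x, y) ∈ (s ×ˢ t) ∩ A ×ˢ A := ⟨⟨hx.1, hy.1⟩, ⟨hx.2, hy.2⟩⟩
      simp only [ind]
      rw [indicator_of_mem hxy, indicator_of_mem hy, one_mul]
    · have hxy : (x, y) ∉ (s ×ˢ t) ∩ A ×ˢ A := fun h => hy ⟨h.1.2, h.2.2⟩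
      simp only [ind]
      rw [indicator_of_notMem hxy, indicator_of_notMem hy, zero_mul]
  · rw [indicator_of_notMem hx, mul_zero]
    have : ∀ y, ind ((s ×ˢ t) ∩ A ×ˢ A) x y * f y = 0 := fun y => by
      have hxy : (x, y) ∉ (s ×ˢ t) ∩ A ×ˢ A := fun h => hx ⟨h.1.1, h.2.1⟩
      simp only [ind]
      rw [indicator_of_notMem hxy, zero_mul]
    simp [this]

theorem cls_ind (hOP : S_OP) (hpq : p.HolderConjugate q) (hp : p ≠ ∞) (hq : q ≠ ∞)
    {A : Set S} (hA : MeasurableSet A) (hμ : μ A ≠ ∞) (E : Set (S × S))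
    (hE : MeasurableSet E) : Cls μ p q (ind (E ∩ A ×ˢ A)) := by
  have hc := real_conj hpq hp hq
  induction E, hE using MeasurableSpace.induction_on_inter generateFrom_prod.symm
    isPiSystem_prod with
  | empty =>
    have : ind (∅ ∩ A ×ˢ A) = fun _ _ => (0:ℂ) := by
      funext x y
      simp [ind]
    rw [this]
    exact cls_zero hc
  | basic E hE =>
    obtain ⟨s, hs, t, ht, rfl⟩ := hE
    exact cls_rect hOP hpq hp hq hA hμ hs ht
  | compl E hE ih =>
    have hfull : Cls μ p q (ind ((univ ×ˢ univ) ∩ A ×ˢ A)) :=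
      cls_rect hOP hpq hp hq hA hμ MeasurableSet.univ MeasurableSet.univ
    have := cls_sub hc hp hfull ih
    convert this using 1
    funext x y
    simp only [ind]
    by_cases h1 : (x, y) ∈ A ×ˢ A
    · have hu : (x, y) ∈ (univ ×ˢ univ) ∩ A ×ˢ A := ⟨by simp, h1⟩
      by_cases h2 : (x, y) ∈ E
      · have h3 : (x, y) ∈ E ∩ A ×ˢ A := ⟨h2, h1⟩
        rw [indicator_of_notMem (fun h => h.1 h2), indicator_of_mem hu,
          indicator_of_mem h3, sub_self]
      · have h3 : (x, y) ∈ Eᶜ ∩ A ×ˢ A := ⟨h2, h1⟩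
        rw [indicator_of_mem h3, indicator_of_mem hu,
          indicator_of_notMem (fun h => h2 h.1), sub_zero]
    · rw [indicator_of_notMem (fun h => h1 h.2), indicator_of_notMem (fun h => h1 h.2),
        indicator_of_notMem (fun h => h1 h.2), sub_zero]
  | iUnion E hd hE ih =>
    have hkm : Measurable (Function.uncurry (ind ((⋃ i, E i) ∩ A ×ˢ A))) :=
      ind_meas ((MeasurableSet.iUnion hE).inter (hA.prod hA))
    have hkf : HT μ p q (ind ((⋃ i, E i) ∩ A ×ˢ A)) ≠ ∞ :=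
      ht_of_bdd hc hA hμ _ 1 (ind_norm_le _) (fun x y h => by
        unfold ind
        exact indicator_of_notMem (fun h' => h h'.2) _)
    have hpart : ∀ n : ℕ, Cls μ p q (fun x y => ∑ i ∈ Finset.range n, ind (E i ∩ A ×ˢ A) x y) := by
      intro n
      induction n with
      | zero => simpa using cls_zero hc
      | succ n ihn =>
        have := cls_add hc hp ihn (ih n)
        simpa only [Finset.sum_range_succ] using this
    have hval : ∀ x y, ∀ j, (x, y) ∈ E j → (x, y) ∈ A ×ˢ A → ∀ n,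
        ∑ i ∈ Finset.range n, ind (E i ∩ A ×ˢ A) x y = if j < n then 1 else 0 := by
      intro x y j hj hA' n
      have : ∀ i, ind (E i ∩ A ×ˢ A) x y = if i = j then 1 else 0 := by
        intro i
        by_cases hij : i = j
        · subst hij
          simp only [ind]
          have h3 : (x, y) ∈ E i ∩ A ×ˢ A := ⟨hj, hA'⟩
          rw [indicator_of_mem h3]
          simp
        · simp only [ind]
          rw [indicator_of_notMem, if_neg hij]
          exact fun h => (Set.disjoint_left.1 (hd hij)) h.1 hj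
      simp only [this, Finset.sum_ite_eq', Finset.mem_range]
    have hval0 : ∀ x y, (x, y) ∉ (⋃ i, E i) ∩ A ×ˢ A → ∀ n,
        ∑ i ∈ Finset.range n, ind (E i ∩ A ×ˢ A) x y = 0 := by
      intro x y h n
      refine Finset.sum_eq_zero fun i _ => ?_
      simp only [ind]
      exact indicator_of_notMem (fun h' => h ⟨mem_iUnion.2 ⟨i, h'.1⟩, h'.2⟩) _
    refine cls_dct hOP hpq hp hq hkm hkf _ hpart (fun n x y => ?_) (fun x y => ?_)
    · by_cases h : (x, y) ∈ (⋃ i, E i) ∩ A ×ˢ A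
      · obtain ⟨j, hj⟩ := mem_iUnion.1 h.1
        rw [hval x y j hj h.2 n]
        simp only [ind]
        rw [indicator_of_mem h]
        split_ifs <;> simp
      · rw [hval0 x y h n, norm_zero]
        positivity
    · by_cases h : (x, y) ∈ (⋃ i, E i) ∩ A ×ˢ A
      · obtain ⟨j, hj⟩ := mem_iUnion.1 h.1
        simp only [hval x y j hj h.2]
        simp only [ind]
        rw [indicator_of_mem h]
        refine tendsto_const_nhds.congr' ?_
        filter_upwards [eventually_gt_atTop j] with n hn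
        rw [if_pos hn]
      · simp only [hval0 x y h]
        simp only [ind]
        rw [indicator_of_notMem h]
        exact tendsto_const_nhds

theorem cls_simple (hOP : S_OP) (hpq : p.HolderConjugate q) (hp : p ≠ ∞) (hq : q ≠ ∞)
    {A : Set S} (hA : MeasurableSet A) (hμ : μ A ≠ ∞) (s : SimpleFunc (S × S) ℂ) :
    Cls μ p q (fun x y => (A ×ˢ A).indicator s (x, y)) := by
  have hc := real_conj hpq hp hq
  induction s using SimpleFunc.induction with
  | const c hE =>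
    rename_i E
    have := cls_smul hc c (cls_ind hOP hpq hp hq hA hμ E hE)
    convert this using 1
    funext x y
    simp only [ind]
    by_cases h1 : (x, y) ∈ A ×ˢ A
    · by_cases h2 : (x, y) ∈ E
      · have h3 : (x, y) ∈ E ∩ A ×ˢ A := ⟨h2, h1⟩
        rw [indicator_of_mem h1, indicator_of_mem h3]
        simp [h2]
      · rw [indicator_of_mem h1, indicator_of_notMem (fun h => h2 h.1)]
        simp [h2]
    · rw [indicator_of_notMem h1, indicator_of_notMem (fun h => h1 h.2), mul_zero]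
  | add hd h1 h2 =>
    have := cls_add hc hp h1 h2
    convert this using 1
    funext x y
    rw [SimpleFunc.coe_add, indicator_add']
    rfl

/-- CPT, given the existence of the operators -/
theorem t_CPT (hOP : S_OP) : S_CPT := by
  intro S _ μ _ p q _ _ hpq hp hq k hk hkf V hV
  have hc := real_conj hpq hp hq
  have key : Cls μ p q k := by
    have hk' : Measurable (Function.uncurry k) := hk
    set a : ℕ → SimpleFunc (S × S) ℂ := fun n =>
      SimpleFunc.approxOn (Function.uncurry k) hk' univ 0 (mem_univ _) n with ha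
    refine cls_dct hOP hpq hp hq hk hkf
      (fun n x y => ((spanningSets μ n) ×ˢ (spanningSets μ n)).indicator (a n) (x, y))
      (fun n => cls_simple hOP hpq hp hq (measurableSet_spanningSets μ n)
        (measure_spanningSets_lt_top μ n).ne (a n)) (fun n x y => ?_) (fun x y => ?_)
    · have h1 : ‖a n (x, y)‖ ≤ ‖k x y‖ + ‖k x y‖ :=
        SimpleFunc.norm_approxOn_zero_le hk' (mem_univ _) (x, y) n
      refine (norm_indicator_le_norm_self _ _).trans (h1.trans (le_of_eq ?_))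
      ring
    · have h1 : Tendsto (fun n => a n (x, y)) atTop (𝓝 (k x y)) := by
        have := SimpleFunc.tendsto_approxOn hk' (s := univ) (mem_univ (0:ℂ)) (x := (x, y))
          (by simp)
        exact this
      refine h1.congr' ?_
      have hx : ∀ᶠ n in atTop, x ∈ spanningSets μ n := by
        obtain ⟨i, hi⟩ := mem_iUnion.1 ((iUnion_spanningSets μ).symm ▸ mem_univ x)
        filter_upwards [eventually_ge_atTop i] with n hn
        exact monotone_spanningSets μ hn hi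
      have hy : ∀ᶠ n in atTop, y ∈ spanningSets μ n := by
        obtain ⟨i, hi⟩ := mem_iUnion.1 ((iUnion_spanningSets μ).symm ▸ mem_univ y)
        filter_upwards [eventually_ge_atTop i] with n hn
        exact monotone_spanningSets μ hn hi
      filter_upwards [hx, hy] with n h1 h2
      have h3 : (x, y) ∈ spanningSets μ n ×ˢ spanningSets μ n := ⟨h1, h2⟩
      rw [indicator_of_mem h3]
  obtain ⟨-, -, W, hW, hWc⟩ := key
  rw [isInt_unique hV hW]
  exact hWc

end cls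

end Pool.Agent.K1H2.VM
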